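import Pool.Agent.W207.PF.SpecA

/-! # The identity for the truncated transforms -/

set_option autoImplicit false

open Filter Topology Set MeasureTheory

namespace Pool.Agent.W902.PF

open W207.PR (ct)
open W207.PF

theorem tn_continuous {R : ℝ} (_hR : 0 < R) : Continuous (tn R) := by
  unfold tn
  exact ((continuous_const.sub (continuous_abs.div_const R)).max continuous_const)

theorem tn_supp {R : ℝ} (hR : 0 < R) : HasCompactSupport (tn R) := by
  refine HasCompactSupport.intro (K := Metric.closedBall 0 R) (isCompact_closedBall 0 R) ?_
  intro a ha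
  rw [Metric.mem_closedBall, dist_zero_right, Real.norm_eq_abs, not_le] at ha
  unfold tn
  rw [max_eq_right]
  rw [sub_nonpos, le_div_iff₀ hR]
  linarith

theorem ct_continuous {c : ℝ → ℝ} (hc : Continuous c) (hs : HasCompactSupport c) :
    Continuous (ct c) := by
  unfold ct
  refine continuous_of_dominated (bound := fun α => |c α|) ?_ ?_ ?_ ?_
  · intro x
    exact (by fun_prop : Continuous fun α => c α * Real.cos (2 * Real.pi * α * x)).aestronglyMeasurable
  · intro x
    refine Eventually.of_forall fun α => ?_
    rw [Real.norm_eq_abs, abs_mul]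
    exact mul_le_of_le_one_right (abs_nonneg _) (Real.abs_cos_le_one _)
  · exact (hc.integrable_of_hasCompactSupport hs).abs
  · exact Eventually.of_forall fun α => by fun_prop

theorem odd_zero {c : ℝ → ℝ} (he : ∀ y, c (-y) = c y) (a : ℝ) :
    ∫ y, c y * Real.sin (2 * Real.pi * a * y) = 0 := by
  have h := integral_neg_eq_self (fun y => c y * Real.sin (2 * Real.pi * a * y)) volume
  have h2 : ∫ y, c (-y) * Real.sin (2 * Real.pi * a * (-y)) =
      -∫ y, c y * Real.sin (2 * Real.pi * a * y) := by
    rw [← integral_neg]
    refine integral_congr_ae (Eventually.of_forall fun y => ?_)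
    simp only [he y, mul_neg, Real.sin_neg]
  rw [h2] at h
  linarith

theorem apx1 : S_APX1 := by
  intro c hc he hs R hR
  have htc := tn_continuous hR
  have hts := tn_supp hR
  have hcc := ct_continuous hc hs
  refine ⟨htc.mul hcc, hts.mul_right, ?_⟩
  intro x
  have hci : Integrable c := hc.integrable_of_hasCompactSupport hs
  have hti : Integrable (tn R) := htc.integrable_of_hasCompactSupport hts
  have hint : Integrable (Function.uncurry fun (y a : ℝ) =>
      c y * (tn R a * Real.cos (2 * Real.pi * a * (x - y)))) (volume.prod volume) := by
    have h1 : Integrable (fun z : ℝ × ℝ => c z.1 * tn R z.2) (volume.prod volume) :=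
      hci.mul_prod hti
    refine h1.mono ?_ ?_
    · have : Continuous (Function.uncurry fun (y a : ℝ) =>
          c y * (tn R a * Real.cos (2 * Real.pi * a * (x - y)))) := by
        unfold Function.uncurry
        fun_prop
      exact this.aestronglyMeasurable
    · refine Eventually.of_forall fun z => ?_
      simp only [Function.uncurry, norm_mul, Real.norm_eq_abs]
      rw [← mul_assoc]
      exact mul_le_of_le_one_right (by positivity) (Real.abs_cos_le_one _)
  have hrhs : ∫ y, c y * ct (tn R) (x - y) =
      ∫ y, ∫ a, c y * (tn R a * Real.cos (2 * Real.pi * a * (x - y))) := by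
    refine integral_congr_ae (Eventually.of_forall fun y => ?_)
    simp only
    rw [integral_const_mul]
    rfl
  rw [hrhs, integral_integral_swap hint]
  unfold ct
  refine integral_congr_ae (Eventually.of_forall fun a => ?_)
  simp only
  have hcos : Integrable (fun y => c y * Real.cos (2 * Real.pi * y * a)) :=
    (by fun_prop : Continuous fun y => c y * Real.cos (2 * Real.pi * y * a)).integrable_of_hasCompactSupport
      hs.mul_right
  have hsin : Integrable (fun y => c y * Real.sin (2 * Real.pi * a * y)) :=
    (by fun_prop : Continuous fun y => c y * Real.sin (2 * Real.pi * a * y)).integrable_of_hasCompactSupport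
      hs.mul_right
  have hpt : ∀ y, c y * (tn R a * Real.cos (2 * Real.pi * a * (x - y))) =
      (tn R a * Real.cos (2 * Real.pi * a * x)) * (c y * Real.cos (2 * Real.pi * y * a)) +
      (tn R a * Real.sin (2 * Real.pi * a * x)) * (c y * Real.sin (2 * Real.pi * a * y)) := by
    intro y
    have e1 : 2 * Real.pi * a * (x - y) = 2 * Real.pi * a * x - 2 * Real.pi * a * y := by ring
    have e2 : 2 * Real.pi * y * a = 2 * Real.pi * a * y := by ring
    rw [e1, e2, Real.cos_sub]
    ring
  simp_rw [hpt]
  rw [integral_add (hcos.const_mul _) (hsin.const_mul _), integral_const_mul, integral_const_mul,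
    odd_zero he a, mul_zero, add_zero]
  ring

end Pool.Agent.W902.PF
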